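import Pool.Agent.W114.HL.Stm
import Pool.Agent.W304.PQ.B2

/-!
Project HL (helper114), task B: fewer than `k` small exact prime divisors, at least two large ones,
with a rate. Adapted from `Pool.Agent.W304.PQ.B2`.
-/

set_option autoImplicit false

namespace Pool.Agent.W340.HL

open Finset Filter Topology
open Pool.Agent.H951R4.OD (ch PI Ex mert_le sum_inv_prod d3_ncard d3_ps d3_log)
open Pool.Agent.W114.HL
open Pool.Agent.W114.PQ (wX EP)
open Pool.Agent.W304.PQ (ev_facts exc_count dyadic nine_rpow)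

theorem log_pow_le (ε : ℝ) (hε : 0 < ε) (m : ℕ) : ∃ A : ℝ, 0 < A ∧ ∀ t : ℝ, 1 ≤ t →
    (1 + Real.log t) ^ (m + 1) ≤ A * t ^ ε := by
  set δ : ℝ := ε / (m + 1) with hδ
  have hδ0 : 0 < δ := by positivity
  refine ⟨(1 + 1 / δ) ^ (m + 1), by positivity, fun t ht => ?_⟩
  have h0 : 0 ≤ Real.log t := Real.log_nonneg ht
  have h1 : Real.log t ≤ t ^ δ / δ := Real.log_le_rpow_div (by linarith) hδ0
  have h2 : (1 : ℝ) ≤ t ^ δ := Real.one_le_rpow ht hδ0.le
  have h3 : 1 + Real.log t ≤ (1 + 1 / δ) * t ^ δ := by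
    have : (1 + 1 / δ) * t ^ δ = t ^ δ + t ^ δ / δ := by ring
    rw [this]; linarith
  refine (pow_le_pow_left₀ (by linarith) h3 (m + 1)).trans (le_of_eq ?_)
  rw [mul_pow, ← Real.rpow_natCast (t ^ δ), ← Real.rpow_mul (by linarith)]
  congr 2
  rw [hδ]
  push_cast
  field_simp

open scoped Classical in
theorem b (cb : S_CB) (l2 : Pool.Agent.W114.PQ.S_L2) : S_B := by
  intro D hD ε hε k
  obtain ⟨C, hC1, hCB⟩ := cb D hD k
  obtain ⟨CM, hCM0, hCM⟩ := mert_le
  choose Dj hDj1 hDj using sum_inv_prod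
  set SD : ℝ := ∑ j ∈ range k, Dj j with hSD
  have hSD0 : 0 ≤ SD := sum_nonneg (fun j _ => by linarith [hDj1 j])
  set c : ℕ → ℝ := fun q => if q ∣ D.c0 then 0 else D.ρ q with hc
  have hcκ : ∀ q, |c q| ≤ D.κ := by
    intro q
    have h1 := hD.rho_up q
    rw [hc]
    dsimp only
    split_ifs
    · rw [abs_zero]
      linarith [hD.κ1]
    · rw [abs_of_nonneg h1.1]
      exact h1.2
  have htend : Tendsto (fun X : ℕ => Real.log (X : ℝ)) atTop atTop :=
    Real.tendsto_log_atTop.comp tendsto_natCast_atTop_atTop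
  obtain ⟨AE, hAE0, hAE⟩ := log_pow_le ε hε (k + 1)
  set C1 : ℝ := 24 * D.κ ^ 2 + 54 * C * SD * (1 + CM) * AE with hC1'
  have key : ∀ᶠ X : ℕ in atTop, ({n : ℕ | 1 ≤ n ∧ n ≤ X ∧ Pass D n ∧ (EP D.c0 (wX X) n).card < k ∧
      ∃ r r' : ℕ, wX X < r ∧ r < r' ∧ Ex D.c0 n r ∧ Ex D.c0 n r'}.ncard : ℝ) ≤
      C1 * X * (Real.log X) ^ (ε - 9 / 8) := by
    filter_upwards [htend.eventually (ev_facts C k)] with X hX
    obtain ⟨f1, f2, f3, f4, f5, f6, f7, f8⟩ := hX
    set L : ℝ := Real.log (X : ℝ) with hL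
    set u : ℝ := L ^ (3 / 4 : ℝ) with hu
    have hL0 : 0 < L := by linarith
    have hu0 : 0 < u := Real.rpow_pos_of_pos hL0 _
    have hlL : 0 ≤ Real.log L := Real.log_nonneg (by linarith)
    have hX1 : (1 : ℝ) < X := by
      by_contra hcon
      push Not at hcon
      have := Real.log_nonpos (Nat.cast_nonneg X) hcon
      linarith
    have hX0 : (0 : ℝ) < X := by linarith
    have hXe : Real.exp L = X := Real.exp_log hX0
    -- w
    set w : ℕ := wX X with hw
    have hw1 : (w : ℝ) ≤ Real.exp u := Nat.floor_le (Real.exp_pos _).le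
    have hw2 : Real.exp u < w + 1 := Nat.lt_floor_add_one _
    have hw3 : 3 ≤ w := by
      have h1 : ((3 : ℕ) : ℝ) < (w : ℝ) + 0 := by
        push_cast
        linarith
      rw [add_zero] at h1
      have h2 : 3 < w := by exact_mod_cast h1
      omega
    have hwpos : (0 : ℝ) < w := by
      have : 0 < w := by omega
      exact_mod_cast this
    have hlw : Real.log w ≤ u := by
      have := Real.log_le_log hwpos hw1
      rwa [Real.log_exp] at this
    -- Q
    set Q : ℕ := ⌊Real.exp (u / 8)⌋₊ with hQ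
    have hQ1 : (Q : ℝ) ≤ Real.exp (u / 8) := Nat.floor_le (Real.exp_pos _).le
    have hQ2 : Real.exp (u / 8) < Q + 1 := Nat.lt_floor_add_one _
    -- Y
    set Y : ℕ := ⌈L ^ 3⌉₊ with hY
    have hL3 : 8 ≤ L ^ 3 := by nlinarith [sq_nonneg (L - 2), mul_self_nonneg L]
    have hY1 : L ^ 3 ≤ Y := Nat.le_ceil _
    have hY2 : (Y : ℝ) < L ^ 3 + 1 := Nat.ceil_lt_add_one (by linarith)
    have hY3 : 3 ≤ Y := by
      have h1 : ((3 : ℕ) : ℝ) ≤ Y := by
        push_cast
        linarith
      exact_mod_cast h1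
    have hYQ : Y ≤ Q := by
      have h1 : (Y : ℝ) ≤ Q := by linarith
      exact_mod_cast h1
    have hQ4 : Q ^ 4 ≤ w := by
      have h1 : (Q : ℝ) ^ 4 ≤ Real.exp (u / 2) := by
        have h2 := pow_le_pow_left₀ (Nat.cast_nonneg Q) hQ1 4
        rw [← Real.exp_nat_mul] at h2
        refine h2.trans (le_of_eq ?_)
        congr 1
        push_cast
        ring
      have h3 : (Q : ℝ) ^ 4 ≤ w := by linarith
      exact_mod_cast h3
    have hQw : Q ≤ w := (Nat.le_self_pow (by norm_num) Q).trans hQ4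
    have hQpos : (0 : ℝ) < Q := by
      have : 0 < Q := by omega
      exact_mod_cast this
    have hlQ1 : Real.log Q ≤ u / 8 := by
      have := Real.log_le_log hQpos hQ1
      rwa [Real.log_exp] at this
    have hlQ2 : u / 9 ≤ Real.log Q := by
      have h1 : Real.exp (u / 9) ≤ Q := by linarith
      have h2 := Real.log_le_log (Real.exp_pos _) h1
      rwa [Real.log_exp] at h2
    have hcond : C * Real.log Q * (1 + Real.log (Real.log Q)) ≤ Real.log X := by
      have h1 : Real.log (Real.log Q) ≤ Real.log L :=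
        Real.log_le_log (by linarith) (by linarith)
      have h2 : C * Real.log Q ≤ C * u := mul_le_mul_of_nonneg_left (by linarith) (by linarith)
      have h3 : 0 ≤ C * Real.log Q := mul_nonneg (by linarith) (by linarith)
      calc C * Real.log Q * (1 + Real.log (Real.log Q))
          ≤ C * Real.log Q * (1 + Real.log L) := mul_le_mul_of_nonneg_left (by linarith) h3
        _ ≤ C * u * (1 + Real.log L) := mul_le_mul_of_nonneg_right h2 (by linarith)
        _ ≤ L := f3
    have hlY0 : 0 ≤ Real.log Y := Real.log_natCast_nonneg Y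
    have hlY : Real.log Y ≤ 4 * Real.log L := by
      have h1 : (Y : ℝ) ≤ L ^ 4 := by
        have : L ^ 4 = L * L ^ 3 := by ring
        nlinarith
      have h2 := Real.log_le_log (by
        have : 0 < Y := by omega
        exact_mod_cast this) h1
      rw [Real.log_pow] at h2
      exact_mod_cast h2
    have hwk : (w : ℝ) ^ (4 * k) ≤ X := by
      have h1 := pow_le_pow_left₀ hwpos.le hw1 (4 * k)
      rw [← Real.exp_nat_mul] at h1
      refine h1.trans ?_
      rw [← hXe]
      apply Real.exp_le_exp.2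
      push_cast
      exact f5
    -- the cover
    set S : ℕ → ℝ := fun x => ∑ q ∈ PI Y Q, c q * ch (x : ℤ) q / q with hS
    set RR : Finset ℕ := (PI w X).filter (fun r => r ^ 2 ≤ X ∧ |S r| ≤ 1 / 2) with hRR
    set F : Finset ℕ → ℕ → Finset ℕ := fun ps r => (Icc 1 X).filter (fun n => Pass D n ∧
      (∀ p ∈ ps, Ex D.c0 n p) ∧ Ex D.c0 n r ∧ ∀ p : ℕ, Ex D.c0 n p → p ≤ Q → p ∈ ps) with hF
    set AA : Finset ℕ := (range (Nat.log 2 X + 1)).biUnion (fun i =>
        ((Ioc (2 ^ i * w) (2 * (2 ^ i * w))).filter (fun x : ℕ =>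
          1 / 2 < |∑ q ∈ PI Y Q, c q * ch (x : ℤ) q / q|)).biUnion (fun r =>
            (Icc 1 X).filter (fun n => r ∣ n))) with hAA
    set BB : Finset ℕ := (range k).biUnion (fun j => ((PI 0 w).powersetCard j).biUnion (fun ps =>
      RR.biUnion (fun r => F ps r))) with hBB
    have hcov : (Icc 1 X).filter (fun n => Pass D n ∧ (EP D.c0 w n).card < k ∧
        ∃ r r' : ℕ, w < r ∧ r < r' ∧ Ex D.c0 n r ∧ Ex D.c0 n r') ⊆ AA ∪ BB := by
      intro n hn
      rw [mem_filter] at hn
      obtain ⟨hn1, hn2, hn3, r, r', hr1, hr2, hr3, hr4⟩ := hn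
      have hnn := mem_Icc.1 hn1
      have hcop : Nat.Coprime r r' := (Nat.coprime_primes hr3.1 hr4.1).2 (by omega)
      have hdv : r * r' ∣ n := hcop.mul_dvd_of_dvd_of_dvd hr3.2.2.1 hr4.2.2.1
      have hle : r * r' ≤ n := Nat.le_of_dvd (by omega) hdv
      have hsq : r ^ 2 ≤ X := by
        have : r ^ 2 ≤ r * r' := by
          rw [sq]
          exact Nat.mul_le_mul_left _ hr2.le
        omega
      have hrX : r ≤ X := (Nat.le_self_pow (by norm_num) r).trans hsq
      rw [mem_union]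
      by_cases hSr : 1 / 2 < |S r|
      · left
        obtain ⟨i, hi1, hi2⟩ := dyadic (by omega : 1 ≤ w) hr1 hrX
        rw [hAA, mem_biUnion]
        refine ⟨i, hi1, ?_⟩
        rw [mem_biUnion]
        refine ⟨r, ?_, ?_⟩
        · rw [mem_filter]
          exact ⟨hi2, hSr⟩
        · rw [mem_filter]
          exact ⟨hn1, hr3.2.2.1⟩
      · right
        rw [hBB, mem_biUnion]
        refine ⟨(EP D.c0 w n).card, mem_range.2 hn3, ?_⟩
        rw [mem_biUnion]
        refine ⟨EP D.c0 w n, ?_, ?_⟩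
        · rw [mem_powersetCard]
          refine ⟨?_, rfl⟩
          intro p hp
          unfold EP at hp
          rw [mem_filter, mem_Icc] at hp
          unfold PI
          rw [mem_filter, mem_Ioc]
          exact ⟨⟨by omega, hp.1.2⟩, hp.2.1⟩
        · rw [mem_biUnion]
          refine ⟨r, ?_, ?_⟩
          · rw [hRR, mem_filter]
            refine ⟨?_, hsq, not_lt.1 hSr⟩
            unfold PI
            rw [mem_filter, mem_Ioc]
            exact ⟨⟨hr1, hrX⟩, hr3.1⟩
          · rw [hF]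
            dsimp only
            rw [mem_filter]
            refine ⟨hn1, hn2, ?_, hr3, ?_⟩
            · intro p hp
              unfold EP at hp
              exact (mem_filter.1 hp).2
            · intro p hp hpQ
              unfold EP
              rw [mem_filter, mem_Icc]
              exact ⟨⟨hp.1.pos, hpQ.trans hQw⟩, hp⟩
    have hcount : ({n : ℕ | 1 ≤ n ∧ n ≤ X ∧ Pass D n ∧ (EP D.c0 w n).card < k ∧
        ∃ r r' : ℕ, w < r ∧ r < r' ∧ Ex D.c0 n r ∧ Ex D.c0 n r'}.ncard : ℝ) ≤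
          (AA.card : ℝ) + (BB.card : ℝ) := by
      rw [d3_ncard]
      have := (card_le_card hcov).trans (card_union_le _ _)
      exact_mod_cast this
    -- bound of AA
    have hA := exc_count l2 D.κ c hD.κ1 hcκ Y Q w X (by omega) (by omega) hQ4
    rw [← hAA] at hA
    -- bound of BB
    set qf : ℝ := (Real.log Q) ^ (-(3 / 2) : ℝ) with hqf
    set yf : ℝ := (Real.log Y) ^ (1 / 2 : ℝ) with hyf
    have hqf0 : 0 ≤ qf := Real.rpow_nonneg (by linarith) _
    have hyf0 : 0 ≤ yf := Real.rpow_nonneg hlY0 _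
    set G : ℝ := C * X * qf * yf with hG
    have hG0 : 0 ≤ G := by positivity
    have hSR : ∑ r ∈ RR, (1 : ℝ) / r ≤ Real.log L + CM := by
      have h1 : RR ⊆ PI 0 X := by
        intro r hr
        rw [hRR, mem_filter] at hr
        have := hr.1
        unfold PI at this ⊢
        rw [mem_filter, mem_Ioc] at this ⊢
        exact ⟨⟨by omega, this.1.2⟩, this.2⟩
      have h2 : ∑ r ∈ RR, (1 : ℝ) / r ≤ ∑ r ∈ PI 0 X, (1 : ℝ) / r :=
        sum_le_sum_of_subset_of_nonneg h1 (fun _ _ _ => by positivity)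
      have hX3 : 3 ≤ X := by
        have h3 : L + 1 ≤ X := by
          rw [← hXe]
          exact Real.add_one_le_exp L
        have h4 : ((3 : ℕ) : ℝ) ≤ X := by
          push_cast
          linarith
        exact_mod_cast h4
      have h3 := (abs_le.1 (hCM X hX3)).2
      linarith
    have hB1 : ∀ j ∈ range k, ∀ ps ∈ (PI 0 w).powersetCard j, ∀ r ∈ RR,
        ((F ps r).card : ℝ) ≤ G * (1 / ∏ p ∈ ps, (p : ℝ)) * (1 / r) := by
      intro j hj ps hps r hr
      rw [mem_range] at hj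
      obtain ⟨hps1, hps2⟩ := d3_ps hps
      rw [hRR, mem_filter] at hr
      obtain ⟨hr1, hr2, hr3⟩ := hr
      unfold PI at hr1
      rw [mem_filter, mem_Ioc] at hr1
      have hrpos : 0 < r := hr1.2.pos
      have hrnot : r ∉ ps := by
        intro h
        have := (hps2 r h).2
        omega
      have hprod : ((∏ p ∈ ps, p) * r) ^ 4 ≤ X ^ 3 := by
        have h1 : ∏ p ∈ ps, p ≤ w ^ k := by
          refine (Finset.prod_le_pow_card ps _ w (fun p hp => (hps2 p hp).2)).trans ?_
          exact Nat.pow_le_pow_right (by omega) (by omega)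
        have h2 : w ^ (4 * k) ≤ X := by exact_mod_cast hwk
        calc ((∏ p ∈ ps, p) * r) ^ 4 = (∏ p ∈ ps, p) ^ 4 * (r ^ 2) ^ 2 := by ring
          _ ≤ (w ^ k) ^ 4 * X ^ 2 := Nat.mul_le_mul (Nat.pow_le_pow_left h1 4)
              (Nat.pow_le_pow_left hr2 2)
          _ = w ^ (4 * k) * X ^ 2 := by ring
          _ ≤ X * X ^ 2 := Nat.mul_le_mul_right _ h2
          _ = X ^ 3 := by ring
      have h := hCB X Y Q hY3 hYQ hcond ps r (by omega) (fun p hp => (hps2 p hp).1) hr1.2
        (by omega) hrnot hprod hr3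
      rw [d3_ncard] at h
      refine h.trans (le_of_eq ?_)
      rw [hG, hqf, hyf]
      have hr0 : (r : ℝ) ≠ 0 := by
        exact_mod_cast hrpos.ne'
      have hp0 : (∏ p ∈ ps, (p : ℝ)) ≠ 0 := by
        rw [Finset.prod_ne_zero_iff]
        intro p hp
        exact_mod_cast (hps2 p hp).1.ne_zero
      field_simp
    have hB : (BB.card : ℝ) ≤ G * (Real.log L + CM) * (SD * (1 + Real.log L) ^ k) := by
      have h1 : (BB.card : ℝ) ≤ ∑ j ∈ range k, ∑ ps ∈ (PI 0 w).powersetCard j, ∑ r ∈ RR,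
          ((F ps r).card : ℝ) := by
        have h2 := (Finset.card_biUnion_le (s := range k) (t := fun j =>
          ((PI 0 w).powersetCard j).biUnion (fun ps => RR.biUnion (fun r => F ps r)))).trans
          (Finset.sum_le_sum fun j _ => Finset.card_biUnion_le.trans
            (Finset.sum_le_sum fun ps _ => Finset.card_biUnion_le))
        exact_mod_cast h2
      refine h1.trans ?_
      have h3 : ∀ j ∈ range k, ∑ ps ∈ (PI 0 w).powersetCard j, ∑ r ∈ RR, ((F ps r).card : ℝ) ≤
          G * (Real.log L + CM) * (Dj j * (1 + Real.log L) ^ k) := by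
        intro j hj
        have h4 : ∀ ps ∈ (PI 0 w).powersetCard j, ∑ r ∈ RR, ((F ps r).card : ℝ) ≤
            G * (Real.log L + CM) * (1 / ∏ p ∈ ps, (p : ℝ)) := by
          intro ps hps
          refine (Finset.sum_le_sum (hB1 j hj ps hps)).trans ?_
          rw [← Finset.mul_sum]
          have h5 : 0 ≤ G * (1 / ∏ p ∈ ps, (p : ℝ)) := by positivity
          refine (mul_le_mul_of_nonneg_left hSR h5).trans (le_of_eq ?_)
          ring
        refine (Finset.sum_le_sum h4).trans ?_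
        rw [← Finset.mul_sum]
        refine mul_le_mul_of_nonneg_left ?_ (by positivity)
        refine (hDj j w hw3).trans ?_
        obtain ⟨hlw1, hllw⟩ := d3_log hw3
        have h6 : Real.log (Real.log w) ≤ Real.log L :=
          Real.log_le_log (by linarith) (by linarith)
        have h7 : (1 + Real.log (Real.log w)) ^ j ≤ (1 + Real.log L) ^ k :=
          (pow_le_pow_left₀ (by linarith) (by linarith) j).trans
            (pow_le_pow_right₀ (by linarith) (by
              rw [mem_range] at hj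
              omega))
        exact mul_le_mul_of_nonneg_left h7 (by linarith [hDj1 j])
      refine (Finset.sum_le_sum h3).trans (le_of_eq ?_)
      rw [← Finset.mul_sum, ← Finset.sum_mul]
    -- the two factors
    have hq : qf ≤ 27 * L ^ (-(9 / 8) : ℝ) := by
      rw [← nine_rpow L hL0]
      exact Real.rpow_le_rpow_of_nonpos (by positivity) hlQ2 (by norm_num)
    have hy : yf ≤ 2 * (1 + Real.log L) := by
      rw [hyf, ← Real.sqrt_eq_rpow]
      rw [Real.sqrt_le_left (by linarith)]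
      nlinarith
    have hI : (Nat.log 2 X : ℝ) + 1 ≤ 2 * L + 1 := by
      have h1 : 2 ^ Nat.log 2 X ≤ X := Nat.pow_log_le_self 2 (by
        intro h
        rw [h] at hX0
        simp at hX0)
      have h2 : ((2 : ℝ)) ^ Nat.log 2 X ≤ X := by exact_mod_cast h1
      have h3 := Real.log_le_log (by positivity) h2
      rw [Real.log_pow] at h3
      have h4 : (1 / 2 : ℝ) ≤ Real.log 2 := by linarith [Real.log_two_gt_d9]
      have h5 : (0 : ℝ) ≤ (Nat.log 2 X : ℝ) := Nat.cast_nonneg _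
      nlinarith
    -- conclusion
    have hLe : 0 < L ^ (ε - 9 / 8 : ℝ) := Real.rpow_pos_of_pos hL0 _
    have hfin1 : (AA.card : ℝ) ≤ 24 * D.κ ^ 2 * X * L ^ (ε - 9 / 8 : ℝ) := by
      have hYpos : (0 : ℝ) < Y := by linarith
      have hL2 : L ^ (-2 : ℝ) ≤ L ^ (ε - 9 / 8 : ℝ) :=
        Real.rpow_le_rpow_of_exponent_le (by linarith) (by linarith)
      have hL2' : L ^ (-2 : ℝ) = 1 / L ^ 2 := by
        rw [Real.rpow_neg hL0.le, one_div]
        norm_num
      calc (AA.card : ℝ) ≤ (Nat.log 2 X + 1) * (8 * D.κ ^ 2 * X / Y) := hA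
        _ ≤ (3 * L) * (8 * D.κ ^ 2 * X / L ^ 3) := by
            gcongr
            linarith
        _ = 24 * D.κ ^ 2 * X * (1 / L ^ 2) := by
            field_simp
            ring
        _ ≤ 24 * D.κ ^ 2 * X * L ^ (ε - 9 / 8 : ℝ) := by
            rw [← hL2']
            gcongr
    have hfin2 : (BB.card : ℝ) ≤ 54 * C * SD * (1 + CM) * AE * X * L ^ (ε - 9 / 8 : ℝ) := by
      have hCMl : Real.log L + CM ≤ (1 + CM) * (1 + Real.log L) := by nlinarith
      have hLp : 0 ≤ L ^ (-(9 / 8) : ℝ) := Real.rpow_nonneg hL0.le _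
      have hpow : L ^ ε * L ^ (-(9 / 8) : ℝ) = L ^ (ε - 9 / 8 : ℝ) := by
        rw [← Real.rpow_add hL0]
        congr 1
      calc (BB.card : ℝ)
          ≤ G * (Real.log L + CM) * (SD * (1 + Real.log L) ^ k) := hB
        _ = C * X * qf * yf * (Real.log L + CM) * (SD * (1 + Real.log L) ^ k) := by
            rw [hG]
        _ ≤ C * X * (27 * L ^ (-(9 / 8) : ℝ)) * (2 * (1 + Real.log L)) *
            ((1 + CM) * (1 + Real.log L)) * (SD * (1 + Real.log L) ^ k) := by gcongr
        _ = 54 * C * SD * (1 + CM) * X * ((1 + Real.log L) ^ (k + 1 + 1) * L ^ (-(9 / 8) : ℝ)) := by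
            ring
        _ ≤ 54 * C * SD * (1 + CM) * X * ((AE * L ^ ε) * L ^ (-(9 / 8) : ℝ)) := by
            have := hAE L (by linarith)
            gcongr
        _ = 54 * C * SD * (1 + CM) * AE * X * (L ^ ε * L ^ (-(9 / 8) : ℝ)) := by ring
        _ = _ := by rw [hpow]
    calc _ ≤ (AA.card : ℝ) + (BB.card : ℝ) := hcount
      _ ≤ _ := add_le_add hfin1 hfin2
      _ = _ := by rw [hC1']; ring
  obtain ⟨X0, hX0⟩ := eventually_atTop.1 key
  have hC10 : 0 ≤ C1 := by rw [hC1']; positivity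
  set C2 : ℝ := ∑ X ∈ range X0, ((Real.log (X : ℝ)) ^ (ε - 9 / 8 : ℝ))⁻¹ with hC2
  have hterm : ∀ X : ℕ, 0 ≤ ((Real.log (X : ℝ)) ^ (ε - 9 / 8 : ℝ))⁻¹ := fun X =>
    inv_nonneg.2 (Real.rpow_nonneg (Real.log_natCast_nonneg X) _)
  have hC20 : 0 ≤ C2 := sum_nonneg fun X _ => hterm X
  refine ⟨C1 + C2 + 1, by linarith, fun X hX3 => ?_⟩
  have hXr : (0 : ℝ) ≤ X := Nat.cast_nonneg X
  have hlX : 0 < Real.log (X : ℝ) := Real.log_pos (by
    have : (3 : ℝ) ≤ X := by exact_mod_cast hX3
    linarith)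
  have hLe : 0 < (Real.log (X : ℝ)) ^ (ε - 9 / 8 : ℝ) := Real.rpow_pos_of_pos hlX _
  by_cases hXX : X0 ≤ X
  · refine (hX0 X hXX).trans ?_
    gcongr
    linarith
  · push Not at hXX
    have h1 : ({n : ℕ | 1 ≤ n ∧ n ≤ X ∧ Pass D n ∧ (EP D.c0 (wX X) n).card < k ∧
      ∃ r r' : ℕ, wX X < r ∧ r < r' ∧ Ex D.c0 n r ∧ Ex D.c0 n r'}.ncard : ℝ) ≤ X := by
      rw [d3_ncard]
      have := card_filter_le (Icc 1 X) (fun n => Pass D n ∧ (EP D.c0 (wX X) n).card < k ∧
        ∃ r r' : ℕ, wX X < r ∧ r < r' ∧ Ex D.c0 n r ∧ Ex D.c0 n r')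
      rw [Nat.card_Icc] at this
      have h2 : ((Icc 1 X).filter (fun n => Pass D n ∧ (EP D.c0 (wX X) n).card < k ∧
        ∃ r r' : ℕ, wX X < r ∧ r < r' ∧ Ex D.c0 n r ∧ Ex D.c0 n r')).card ≤ X := by omega
      exact_mod_cast h2
    refine h1.trans ?_
    have h2 : ((Real.log (X : ℝ)) ^ (ε - 9 / 8 : ℝ))⁻¹ ≤ C2 :=
      single_le_sum (f := fun X : ℕ => ((Real.log (X : ℝ)) ^ (ε - 9 / 8 : ℝ))⁻¹)
        (fun X _ => hterm X) (mem_range.2 hXX)
    calc (X : ℝ) = ((Real.log (X : ℝ)) ^ (ε - 9 / 8 : ℝ))⁻¹ * X *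
          (Real.log (X : ℝ)) ^ (ε - 9 / 8 : ℝ) := by
            field_simp
      _ ≤ (C1 + C2 + 1) * X * (Real.log (X : ℝ)) ^ (ε - 9 / 8 : ℝ) := by
            gcongr
            linarith

end Pool.Agent.W340.HL
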